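import Pool.Agent.MWK.Stmts

/-!
# MWK, row SBB: type B, from a disagreement to the word bit
-/

namespace Pool.Agent.MWK.H3

open Pool.Agent.Helper14_MV Pool.Agent.Helper2_MV

theorem sbb (hFRE : FreStmt) (hCVT : CvtStmt) (hCRD : CrdStmt) (hASG : AsgStmt)
    (hOKM : OkmStmt) : SbbStmt := by
  intro θ hθ m u v x y cs huv hlen hxu hxv hxvm hyu hyv hcu hcv hcx P X C qs R hqs hX hOk
  have hne : x ≠ y := by
    rintro rfl
    exact not_mem_pre u x hxu
  have hxcs : x ∉ cs := fun h => not_mem_pre v x (hcx x h)
  have hycs : y ∉ cs := Chc.not_mem hcu (z := y) (by simp)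
  have hnd : (x :: y :: cs).Nodup := by
    refine List.nodup_cons.2 ⟨?_, List.nodup_cons.2 ⟨hycs, Chc.nodup hcu⟩⟩
    intro h
    rcases List.mem_cons.1 h with h | h
    · exact hne h
    · exact hxcs h
  obtain ⟨g, hg1, hg2⟩ := hASG (x :: y :: cs) (X :: C :: qs) hnd (by simp [hlen, hqs])
  simp only [List.map_cons, List.cons.injEq] at hg1
  obtain ⟨hgx, hgy, hgcs⟩ := hg1
  have hnil : ∀ U : List ℕ, (∀ z ∈ U, g z = []) → U.flatMap g = [] := by
    intro U h
    rw [List.flatMap_eq_nil_iff]
    exact h
  -- reading `u`
  have h1 : RR θ (P ++ u.flatMap g) (P ++ X ++ C ++ qs.flatten) := by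
    obtain ⟨B, hB⟩ := mem_split hyu
    obtain ⟨U₁, U₂, hU, hx1⟩ := List.eq_append_cons_of_mem hxu
    have hyA : y ∉ pre u y := not_mem_pre u y
    have hcA : ∀ c ∈ cs, c ∉ pre u y ∧ c ≠ y := by
      intro c hcm
      have h1 : y ∈ pre u c := hcu.mem_pre y (by simp) c hcm
      refine ⟨pre_asymm h1, ?_⟩
      rintro rfl
      exact not_mem_pre u c h1
    have hChb : Chb [y] cs B := by
      refine hCVT cs [y] u (pre u y ++ [y]) B (by simpa using hB) ?_ ?_ hcu
      · intro z hz
        rw [List.mem_singleton] at hz
        subst hz
        rw [List.count_append, List.count_eq_zero.2 hyA]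
        simp
      · intro c hcm h
        rcases List.mem_append.1 h with h | h
        · exact (hcA c hcm).1 h
        · exact (hcA c hcm).2 (by simpa using h)
    have e1 : U₁.flatMap g = [] := by
      refine hnil U₁ fun z hz => hg2 z fun h => ?_
      rcases List.mem_cons.1 h with rfl | h
      · exact hx1 hz
      rcases List.mem_cons.1 h with rfl | h
      · exact hyA (by rw [hU]; simp [hz])
      · exact (hcA z h).1 (by rw [hU]; simp [hz])
    have e2 : ∀ l ∈ U₂.flatMap g, 2 ≤ (P ++ X).count l := by
      intro l hl
      obtain ⟨z, hz, hlz⟩ := List.mem_flatMap.1 hl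
      by_cases hzx : z = x
      · subst hzx
        rw [hgx] at hlz
        exact hX l hlz
      · have : g z = [] := by
          refine hg2 z fun h => ?_
          rcases List.mem_cons.1 h with h | h
          · exact hzx h
          rcases List.mem_cons.1 h with rfl | h
          · exact hyA (by rw [hU]; simp [hz])
          · exact (hcA z h).1 (by rw [hU]; simp [hz])
        rw [this] at hlz
        simp at hlz
    have e3 : P ++ u.flatMap g = P ++ X ++ U₂.flatMap g ++ (C ++ B.flatMap g) := by
      have e4 : u.flatMap g = (U₁ ++ x :: U₂ ++ y :: B).flatMap g := by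
        rw [← hU, ← hB]
      rw [e4]
      simp only [List.flatMap_append, List.flatMap_cons, e1, hgx, hgy, List.nil_append,
        List.append_assoc]
    rw [e3]
    have h2 : RR θ (P ++ X ++ U₂.flatMap g ++ (C ++ B.flatMap g))
        (P ++ X ++ (C ++ B.flatMap g)) := hFRE θ hθ (P ++ X) (U₂.flatMap g) _ e2
    refine θ.trans h2 ?_
    have h3 := hCRD θ hθ g cs [y] B (P ++ X ++ C) hChb ?_ ?_
    · rw [hgcs] at h3
      have e5 : P ++ X ++ (C ++ B.flatMap g) = P ++ X ++ C ++ B.flatMap g := by
        simp only [List.append_assoc]
      rw [e5]
      exact h3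
    · intro z _
      by_cases h : z ∈ x :: y :: cs
      · rcases List.mem_cons.1 h with rfl | h
        · right; right; right
          intro l hl
          rw [hgx] at hl
          have := hX l hl
          rw [List.count_append]
          omega
        rcases List.mem_cons.1 h with rfl | h
        · right; left; simp
        · right; right; left; exact h
      · exact Or.inl (hg2 z h)
    · have e4 : [y].flatMap g = C := by simp [hgy]
      rw [e4, hgcs]
      exact hOk
  -- reading `v`
  have h2 : RR θ (P ++ v.flatMap g) (P ++ C ++ X ++ qs.flatten) := by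
    obtain ⟨B₀, hB₀⟩ := mem_split hyv
    have hxB : x ∈ B₀ := by
      have : x ∈ pre v y ++ y :: B₀ := by rw [← hB₀]; exact hxvm
      rcases List.mem_append.1 this with h | h
      · exact absurd h hxv
      · rcases List.mem_cons.1 h with h | h
        · exact absurd h hne
        · exact h
    obtain ⟨V₂, B', hV, hx2⟩ := List.eq_append_cons_of_mem hxB
    have hv : v = (pre v y ++ y :: V₂) ++ x :: B' := by
      conv_lhs => rw [hB₀, hV]
      simp
    have hxA : x ∉ pre v y ++ y :: V₂ := by
      intro h
      rcases List.mem_append.1 h with h | h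
      · exact hxv h
      · rcases List.mem_cons.1 h with h | h
        · exact hne h
        · exact hx2 h
    have hprex : pre v x = pre v y ++ y :: V₂ := by
      conv_lhs => rw [hv]
      exact pre_split hxA B'
    have hyA : y ∉ pre v y := not_mem_pre v y
    have hcnt : (pre v x).count y ≤ 1 := by
      cases cs with
      | nil =>
        have h1 : v.count y = 1 := hcv y (by simp)
        have h2 := count_pre_le v y x
        omega
      | cons c cs =>
        have h1 : (pre v c).count y = 1 := hcv.1 y (by simp)
        have h2 : x ∈ pre v c := hcx c (by simp)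
        have h3 := count_pre_mono h2 y
        omega
    have hy2 : y ∉ V₂ := by
      intro h
      rw [hprex, List.count_append, List.count_cons_self] at hcnt
      have h1 : 0 < V₂.count y := List.count_pos_iff.2 h
      omega
    have hcA : ∀ c ∈ cs, c ∉ pre v x ∧ c ≠ x := by
      intro c hcm
      have h1 : x ∈ pre v c := hcx c hcm
      refine ⟨pre_asymm h1, ?_⟩
      rintro rfl
      exact not_mem_pre v c h1
    have hChb : Chb [y] cs B' := by
      refine hCVT cs [y] v (pre v y ++ y :: V₂ ++ [x]) B' (by conv_lhs => rw [hv]
                                                              simp) ?_ ?_ hcv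
      · intro z hz
        rw [List.mem_singleton] at hz
        subst hz
        rw [List.count_append, List.count_append, List.count_cons_self,
          List.count_eq_zero.2 hyA, List.count_eq_zero.2 hy2]
        have : [x].count z = 0 := List.count_eq_zero.2 (by simpa using fun h => hne h.symm)
        rw [this]
      · intro c hcm h
        rcases List.mem_append.1 h with h | h
        · rw [← hprex] at h
          exact (hcA c hcm).1 h
        · exact (hcA c hcm).2 (by simpa using h)
    have e1 : (pre v y).flatMap g = [] := by
      refine hnil _ fun z hz => hg2 z fun h => ?_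
      rcases List.mem_cons.1 h with rfl | h
      · exact hxv hz
      rcases List.mem_cons.1 h with rfl | h
      · exact hyA hz
      · exact (hcA z h).1 (by rw [hprex]; simp [hz])
    have e2 : V₂.flatMap g = [] := by
      refine hnil _ fun z hz => hg2 z fun h => ?_
      rcases List.mem_cons.1 h with rfl | h
      · exact hx2 hz
      rcases List.mem_cons.1 h with rfl | h
      · exact hy2 hz
      · exact (hcA z h).1 (by rw [hprex]; simp [hz])
    have e3 : P ++ v.flatMap g = P ++ C ++ X ++ B'.flatMap g := by
      have e4 : v.flatMap g = ((pre v y ++ y :: V₂) ++ x :: B').flatMap g := by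
        rw [← hv]
      rw [e4]
      simp only [List.flatMap_append, List.flatMap_cons, e1, e2, hgx, hgy, List.nil_append,
        List.append_nil, List.append_assoc]
    rw [e3]
    have h3 := hCRD θ hθ g cs [y] B' (P ++ C ++ X) hChb ?_ ?_
    · rw [hgcs] at h3
      exact h3
    · intro z _
      by_cases h : z ∈ x :: y :: cs
      · rcases List.mem_cons.1 h with rfl | h
        · right; right; right
          intro l hl
          rw [hgx] at hl
          have := hX l hl
          simp only [List.count_append] at this ⊢
          omega
        rcases List.mem_cons.1 h with rfl | h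
        · right; left; simp
        · right; right; left; exact h
      · exact Or.inl (hg2 z h)
    · have e4 : [y].flatMap g = C := by simp [hgy]
      rw [e4, hgcs]
      refine hOKM qs (P ++ X ++ C) (P ++ C ++ X) C C hOk ?_ ?_
      · intro l
        simp only [List.count_append]
        omega
      · intro z hz
        exact hz
  have h3 : RR θ (P ++ u.flatMap g) (P ++ v.flatMap g) := (RR.refl P).append (RR.sub g huv)
  have h4 : RR θ (P ++ X ++ C ++ qs.flatten) (P ++ C ++ X ++ qs.flatten) :=
    θ.trans (θ.trans h1.symm h3) h2
  exact h4.append (RR.refl R)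

end Pool.Agent.MWK.H3
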