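import Pool.Agent.MWK.StmtsN

/-!
# MWK, row NAA: if idempotents do not commute, the words `x^i y^j` are preserved
-/

namespace Pool.Agent.MWK.H3

open Pool.Agent.Helper14_MV Pool.Agent.Helper2_MV
open Pool.Agent.MWF (Ap gaml PowStmt CttStmt SimStmt ZerStmt)

theorem shape01 : ∀ l : List ℕ, (∀ c ∈ l, c = 0 ∨ c = 1) →
    (∃ a b, l = List.replicate a 0 ++ List.replicate b 1) ∨
      ∃ a b r, 1 ≤ b ∧ l = List.replicate a 0 ++ List.replicate b 1 ++ 0 :: r ∧
        ∀ c ∈ r, c = 0 ∨ c = 1
  | [], _ => Or.inl ⟨0, 0, rfl⟩
  | c :: l, h => by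
    have ih := shape01 l (fun d hd => h d (List.mem_cons_of_mem _ hd))
    rcases h c (by simp) with rfl | rfl
    · rcases ih with ⟨a, b, rfl⟩ | ⟨a, b, r, hb, rfl, hr⟩
      · exact Or.inl ⟨a + 1, b, by simp [List.replicate_succ]⟩
      · exact Or.inr ⟨a + 1, b, r, hb, by simp [List.replicate_succ], hr⟩
    · rcases ih with ⟨a, b, rfl⟩ | ⟨a, b, r, hb, rfl, hr⟩
      · cases a with
        | zero => exact Or.inl ⟨0, b + 1, by simp [List.replicate_succ]⟩
        | succ a =>
          refine Or.inr ⟨0, 1, List.replicate a 0 ++ List.replicate b 1, le_rfl, ?_, ?_⟩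
          · simp [List.replicate_succ]
          · intro d hd
            exact h d (by simp only [List.mem_cons, List.mem_append] at hd ⊢
                          rcases hd with hd | hd
                          · right; left
                            rw [List.mem_replicate] at hd ⊢
                            exact ⟨by omega, hd.2⟩
                          · right; right; exact hd)
      · cases a with
        | zero => exact Or.inr ⟨0, b + 1, r, by omega, by simp [List.replicate_succ], hr⟩
        | succ a =>
          refine Or.inr ⟨0, 1, List.replicate a 0 ++ List.replicate b 1 ++ 0 :: r, le_rfl, ?_, ?_⟩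
          · simp [List.replicate_succ]
          · intro d hd
            exact h d (by simp only [List.mem_cons, List.mem_append] at hd ⊢
                          rcases hd with (hd | hd) | hd
                          · right; left; left
                            rw [List.mem_replicate] at hd ⊢
                            exact ⟨by omega, hd.2⟩
                          · right; left; right; exact hd
                          · right; right; exact hd)

theorem naa (hPOW : PowStmt) (hCTT : CttStmt) (hSIM : SimStmt) (hZER : ZerStmt) : NaaStmt := by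
  intro β hm hap hn w w' hw hPA
  obtain ⟨i, j, hi, hj, rfl⟩ := hPA
  have hlet : ∀ c ∈ w', c = 0 ∨ c = 1 := by
    intro c hc
    have h1 := (hCTT β hap _ _ hw c).2 hc
    rcases List.mem_append.1 h1 with h | h
    · exact Or.inl (List.mem_replicate.1 h).2
    · exact Or.inr (List.mem_replicate.1 h).2
  have hcw0 : (List.replicate i 0 ++ List.replicate j 1).count 0 = i := by
    rw [List.count_append, List.count_replicate_self, List.count_replicate]
    simp
  have hcw1 : (List.replicate i 0 ++ List.replicate j 1).count 1 = j := by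
    rw [List.count_append, List.count_replicate_self, List.count_replicate]
    simp
  have hc0 : 2 ≤ w'.count 0 := by
    have h1 : 0 ∈ w' := (hCTT β hap _ _ hw 0).1 (by
      rw [← List.count_pos_iff, hcw0]; omega)
    have h2 : 0 < w'.count 0 := List.count_pos_iff.2 h1
    have h3 : w'.count 0 ≠ 1 := by
      intro h
      have := hSIM β hap _ _ hw.symm 0 h
      omega
    omega
  have hc1 : 2 ≤ w'.count 1 := by
    have h1 : 1 ∈ w' := (hCTT β hap _ _ hw 1).1 (by
      rw [← List.count_pos_iff, hcw1]; omega)
    have h2 : 0 < w'.count 1 := List.count_pos_iff.2 h1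
    have h3 : w'.count 1 ≠ 1 := by
      intro h
      have := hSIM β hap _ _ hw.symm 1 h
      omega
    omega
  rcases shape01 w' hlet with ⟨a, b, hab⟩ | ⟨a, b, r, hb, hab, hr⟩
  · refine ⟨a, b, ?_, ?_, hab⟩
    · rw [hab, List.count_append, List.count_replicate_self, List.count_replicate] at hc0
      simpa using hc0
    · rw [hab, List.count_append, List.count_replicate_self, List.count_replicate] at hc1
      simpa using hc1
  · exfalso
    apply hn
    have sq4 : ∀ c : ℕ, RR β [c, c, c, c] [c, c] := fun c =>
      hPOW β hap.sq c 4 2 (by omega) le_rfl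
    have dblc : ∀ (c : ℕ) (l : List ℕ), MWF.dbl (c :: l) = [c, c] ++ MWF.dbl l := by
      intro c l
      simp [MWF.dbl]
    have dbla : ∀ l m : List ℕ, MWF.dbl (l ++ m) = MWF.dbl l ++ MWF.dbl m := by
      intro l m
      simp [MWF.dbl]
    -- squares in front of powers
    have G : ∀ (c n : ℕ), RR β ([c, c] ++ MWF.dbl (List.replicate n c)) [c, c] := by
      intro c n
      induction n with
      | zero => exact RR.refl _
      | succ n ih =>
        rw [List.replicate_succ, dblc]
        have h1 : RR β ([c, c, c, c] ++ MWF.dbl (List.replicate n c))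
            ([c, c] ++ MWF.dbl (List.replicate n c)) := (sq4 c).append (RR.refl _)
        exact β.trans h1 ih
    have G' : ∀ (c n : ℕ), RR β (MWF.dbl (List.replicate n c) ++ [c, c]) [c, c] := by
      intro c n
      induction n with
      | zero => exact RR.refl _
      | succ n ih =>
        rw [List.replicate_succ, dblc]
        have h1 : RR β ([c, c] ++ (MWF.dbl (List.replicate n c) ++ [c, c])) ([c, c] ++ [c, c]) :=
          (RR.refl _).append ih
        rw [List.append_assoc]
        exact β.trans h1 (sq4 c)
    have G1 : ∀ (c n : ℕ), 1 ≤ n → RR β (MWF.dbl (List.replicate n c)) [c, c] := by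
      intro c n hn
      obtain ⟨n, rfl⟩ := Nat.exists_eq_add_of_le' hn
      rw [List.replicate_succ, dblc]
      exact G c n
    obtain ⟨za, zb⟩ := hZER β hm hap
    have hZ : MWF.dbl [0, 1] ++ MWF.dbl [0, 1] = [0, 0, 1, 1, 0, 0, 1, 1] := rfl
    have C : ∀ r : List ℕ, (∀ c ∈ r, c = 0 ∨ c = 1) →
        RR β ([0, 0, 1, 1, 0, 0] ++ (MWF.dbl r ++ [1, 1])) [0, 0, 1, 1, 0, 0, 1, 1] := by
      intro r
      induction r with
      | nil => intro _; exact RR.refl _
      | cons c r ih =>
        intro hr
        have hr' : ∀ d ∈ r, d = 0 ∨ d = 1 := fun d hd => hr d (List.mem_cons_of_mem _ hd)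
        rcases hr c (by simp) with rfl | rfl
        · rw [dblc]
          have h1 : RR β ([0, 0, 1, 1] ++ ([0, 0, 0, 0] ++ (MWF.dbl r ++ [1, 1])))
              ([0, 0, 1, 1] ++ ([0, 0] ++ (MWF.dbl r ++ [1, 1]))) :=
            (RR.refl _).append ((sq4 0).append (RR.refl _))
          exact β.trans h1 (ih hr')
        · rw [dblc]
          have h1 := (zb [0, 1] (MWF.dbl r ++ [1, 1]) (by
            intro d hd
            rcases List.mem_append.1 hd with hd | hd
            · rw [MWF.dbl, List.mem_flatMap] at hd
              obtain ⟨e, he, hde⟩ := hd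
              have h2 : d = e := by simpa using hde
              subst h2
              rcases hr' d he with rfl | rfl
              · simp
              · simp
            · have h2 : d = 1 := by simpa using hd
              subst h2
              simp)).1
          rw [hZ] at h1
          simpa using h1
    -- the left side
    have hL : RR β ([0, 0] ++ MWF.dbl (List.replicate i 0 ++ List.replicate j 1) ++ [1, 1])
        [0, 0, 1, 1] := by
      have h1 : RR β (([0, 0] ++ MWF.dbl (List.replicate i 0)) ++ (MWF.dbl (List.replicate j 1) ++ [1, 1]))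
          ([0, 0] ++ [1, 1]) := (G 0 i).append (G' 1 j)
      rw [dbla]
      have h2 : [0, 0] ++ (MWF.dbl (List.replicate i 0) ++ MWF.dbl (List.replicate j 1)) ++ [1, 1]
          = ([0, 0] ++ MWF.dbl (List.replicate i 0)) ++
            (MWF.dbl (List.replicate j 1) ++ [1, 1]) := by
        simp only [List.append_assoc]
      rw [h2]
      exact h1
    have hR : RR β ([0, 0] ++ MWF.dbl w' ++ [1, 1]) [0, 0, 1, 1, 0, 0, 1, 1] := by
      have h1 : RR β (([0, 0] ++ MWF.dbl (List.replicate a 0)) ++ (MWF.dbl (List.replicate b 1) ++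
          ([0, 0] ++ (MWF.dbl r ++ [1, 1])))) ([0, 0] ++ ([1, 1] ++ ([0, 0] ++ (MWF.dbl r ++ [1, 1])))) :=
        (G 0 a).append ((G1 1 b hb).append (RR.refl _))
      have h2 : [0, 0] ++ MWF.dbl w' ++ [1, 1] = ([0, 0] ++ MWF.dbl (List.replicate a 0)) ++
          (MWF.dbl (List.replicate b 1) ++ ([0, 0] ++ (MWF.dbl r ++ [1, 1]))) := by
        rw [hab, dbla, dbla, dblc]
        simp only [List.append_assoc]
      rw [h2]
      exact β.trans h1 (C r hr)
    have hsub : RR β (MWF.dbl (List.replicate i 0 ++ List.replicate j 1)) (MWF.dbl w') :=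
      RR.sub (fun c => [c, c]) hw
    have hmid : RR β ([0, 0] ++ MWF.dbl (List.replicate i 0 ++ List.replicate j 1) ++ [1, 1])
        ([0, 0] ++ MWF.dbl w' ++ [1, 1]) := ((RR.refl _).append hsub).append (RR.refl _)
    have hZ1 : RR β [0, 0, 1, 1] [0, 0, 1, 1, 0, 0, 1, 1] :=
      β.trans (β.trans hL.symm hmid) hR
    have hZ2 : RR β [1, 1, 0, 0] [1, 1, 0, 0, 1, 1, 0, 0] := by
      have h1 := RR.sub (fun c => if c = 0 then [1] else [0]) hZ1
      simpa using h1
    have hZ3 : RR β [1, 1, 0, 0, 1, 1, 0, 0] [0, 0, 1, 1, 0, 0, 1, 1] := by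
      have h1 := za [1, 0] [0, 1] (by intro c; simp; tauto)
      exact h1
    exact β.trans hZ1 (β.symm (β.trans hZ2 hZ3))

end Pool.Agent.MWK.H3
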